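import Mathlib
import Pool.Agent.Helper42.DB.Close

/-!
MP_48f005_an, full positive answer: for every dispersing billiard table the exponential growth rate
of the number of periodic orbits exists as a limit.
-/

open Set Filter Topology in
open Pool.Agent.Helper42.DB in
/-- For every dispersing table there are finitely many periodic orbits of each period and
`log f(n) / n` has a limit, the same for the three ways to treat tangential collisions. -/
theorem Pool.Agent.Results.MP_48f005_an.GrowthRate.result : ∀ T : Table,
    (∀ n : ℕ, {O : Set (ℂ × ℂ) | T.PeriodicOrbit True O ∧ O.ncard ≤ n}.Finite) ∧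
    (∀ n : ℕ, {O : Set (ℂ × ℂ) | T.PeriodicOrbit True O ∧
      {x | x ∈ O ∧ T.Trans x}.ncard ≤ n}.Finite) ∧
    ∃ h : ℝ, 0 ≤ h ∧
      Tendsto (fun n : ℕ => Real.log (T.f False n) / n) atTop (𝓝 h) ∧
      Tendsto (fun n : ℕ => Real.log (T.f True n) / n) atTop (𝓝 h) ∧
      Tendsto (fun n : ℕ => Real.log (T.f0 n) / n) atTop (𝓝 h) :=
  final
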